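import Pool.Agent.Helper95.LN.Stmts
import Pool.Agent.Helper53.PN.MTH

/-! # LN: the row MTL (second copy) -/

set_option autoImplicit false

namespace Pool.Agent.Helper77.LN

open MeasureTheory Filter Pool.Agent.Helper95.PW Pool.Agent.Helper95.LN

theorem MTL (h1 : ST_MLL) (h2 : ST_TBL) (h3 : ST_INLJ) (h4 : ST_E0) (h5 : ST_POTB)
    (h6 : ST_LIMG) (h7 : ST_CUT) (h8 : ST_APXM) (h9 : ST_LMTM) (h10 : ST_QHM)
    (h11 : ST_INTM) : ST_MTL := by
  intro z d Ce hz hd hCe
  obtain ⟨Ca, hCa, HA⟩ := h1 z d hz hd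
  obtain ⟨Ck, hCk, HK⟩ := h2 z d Ce hz hd hCe
  obtain ⟨Cb, hCb, HB⟩ := h3
  obtain ⟨Cp, hCp, HP⟩ := h5 z d hz hd
  obtain ⟨K, hK, H7, _⟩ := h7
  have hK0 : 0 < K := by linarith
  obtain ⟨D, hD⟩ : ∃ D : ℝ, D = Ca * (2 * Ce + 1 + Ca * (Ck + 1)) := ⟨_, rfl⟩
  have hD0 : 0 < D := by rw [hD]; positivity
  refine ⟨Real.sqrt (18 * (Cb * K ^ 4) * D), Real.sqrt_pos.2 (by positivity), ?_⟩
  intro n M X Z E φ G hn hM hNuc _ hZz hSep hEn hG
  have hZ0 := hNuc.1
  have hE : E ≤ 0 := h4 n M X Z E hn hZ0 hG.low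
  obtain ⟨u, hu⟩ := h8 n M X Z E φ G hG
  obtain ⟨l1, l2, l3⟩ := h9 n M X Z E φ G u hG hu
  obtain ⟨hsm, _, _, ⟨M0, hM0⟩, hres⟩ := hu
  obtain ⟨W, hW⟩ : ∃ W : ℝ, W = n * (M : ℝ) ^ (2 / 3 : ℝ) := ⟨_, rfl⟩
  have hn1 : (1:ℝ) ≤ n := by exact_mod_cast hn
  have hW0 : 0 ≤ W := by rw [hW]; positivity
  obtain ⟨V, hV⟩ : ∃ V : ℝ, V = Ck * n + 2 * (Cp * (Ck * n + W)) + 1 := ⟨_, rfl⟩
  have hCW0 : 0 ≤ Cp * (Ck * n + W) := by positivity
  have hCk0 : 0 ≤ Ck * (n : ℝ) := by positivity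
  have hZ1 : ∀ j, 1 ≤ Z j := by assumption
  obtain ⟨C', hC', HA'⟩ := HA n M X Z E (Ck * n) hM hn hSep hNuc hZ1 hZz
  have key : ∀ m : Fin 3, Helper95.PW.sq (fun s x => ∑ k, G k m s x) ^ 2 ≤
      Cb * K ^ 4 * (2 * n * (D * n)) := by
    intro m
    have hLt : Tendsto (fun L : ℕ => ((L:ℝ) + 1) / 2) atTop atTop :=
      (tendsto_natCast_atTop_atTop.atTop_add tendsto_const_nhds).atTop_div_const (by norm_num)
    have hL0 : ∀ᶠ L : ℕ in atTop, ∀ j, nr (X j) ≤ ((L:ℝ) + 1) / 2 := by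
      rw [Filter.eventually_all]
      intro j
      exact hLt.eventually_ge_atTop _
    have hev : ∀ᶠ L : ℕ in atTop, Helper95.PW.sq (PG (gm m (L + 1)) φ G) ^ 2 ≤
        Cb * K ^ 4 * (2 * n * (V / (((L:ℝ) + 1) / 2) ^ 2 + 2 * n / (((L:ℝ) + 1) / 2) ^ 4 +
          D * n)) := by
      filter_upwards [hL0] with L hL
      have hLp : (0:ℝ) < (L:ℝ) + 1 := by positivity
      obtain ⟨R, hR⟩ : ∃ R : ℝ, R = ((L:ℝ) + 1) / 2 := ⟨_, rfl⟩
      rw [← hR] at hL ⊢
      have hRp : 0 < R := by rw [hR]; positivity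
      obtain ⟨B, hB⟩ : ∃ B : ℝ, B = V + |M0| := ⟨_, rfl⟩
      obtain ⟨C'', hC'', HI⟩ := HB n M X Z E (fun m => gm m ((L:ℝ) + 1)) K R B Set.univ hG.low hZ0
        hK (fun m => MTH_scale (H7 m _ hLp).1 hK0.le hRp (by rw [hR]; linarith)) hRp isClosed_univ
        (fun m y hy => absurd (Set.mem_univ y) hy)
        (fun m j y hy i => MTH_pd m _ (H7 m _ hLp).2.1 y
          (MTH_geo y (X j) _ hLp (by rw [← hR]; exact hy) (by rw [← hR]; exact hL j)) i)
      have hevj : ∀ᶠ j in atTop,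
          Helper95.PW.sq (fun s => Pg (gm m ((L:ℝ) + 1)) (u j s)) ^ 2 ≤
          Cb * K ^ 4 * (2 * n * (V / R ^ 2 + 2 * n / R ^ 4 +
            (D * n + C' * Real.sqrt (resM X Z E (u j))))) +
              C'' * Real.sqrt (resM X Z E (u j)) := by
        have e1 : ∀ᶠ j in atTop, Helper95.PW.sq (u j) ≤ 2 :=
          l1.eventually_le_const (by norm_num : (1:ℝ) < 2)
        have e2 : ∀ᶠ j in atTop, resM X Z E (u j) ≤ 1 / 2 :=
          hres.eventually_le_const (by norm_num : (0:ℝ) < 1 / 2)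
        filter_upwards [e1, e2] with j hj1 hj2
        have hj3 : kin (u j) ≤ Ck * n :=
          HK n M X Z E (u j) hn hNuc hZz hSep hEn (hsm j).1 hj1 hj2
        have hQ := innm_Q_le_one h10 h11 X Z E (u j) (hsm j).1 hE hj1 hj2
        have hQ2 := innm_Q_le h10 h11 X Z E (u j) (hsm j).1
        have p0 : 0 ≤ Helper95.PW.sq (u j) := com_sq_nonneg (u j)
        have p1 := com_kin_nonneg (u j)
        have p2 := com_pair_nonneg (u j)
        have p3 : 0 ≤ one (pot X Z) (u j) :=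
          com_one_nonneg _ (innm_pot_nonneg X Z hZ0) _
        have q1 := HP n M X Z (u j) hM hSep hZ0 hZz (hsm j).1 hj1
        rw [← hW] at q1
        have q1' : one (pot X Z) (u j) ≤ Cp * (Ck * n + W) :=
          q1.trans (mul_le_mul_of_nonneg_left (by linarith) hCp.le)
        have q2 : pair (u j) ≤ Cp * (Ck * n + W) + 1 := by
          unfold QM at hQ
          linarith
        have q3 := HA' (u j) (hsm j).1 hj1 hj3
        obtain ⟨B1, hB1⟩ : ∃ B1 : ℝ, B1 = D * n + C' * Real.sqrt (resM X Z E (u j)) := ⟨_, rfl⟩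
        have q4 : Ca * (QM X Z (u j) - kin (u j) + nucR X Z * Helper95.PW.sq (u j) +
            Ca * (kin (u j) + n)) ≤ D * n := by
          have r1 : (E + nucR X Z) * Helper95.PW.sq (u j) ≤ Ce * n * 2 :=
            mul_le_mul hEn hj1 p0 (by positivity)
          have r2 : Ca * (kin (u j) + n) ≤ Ca * (Ck * n + n) :=
            mul_le_mul_of_nonneg_left (by linarith) hCa.le
          have r3 : QM X Z (u j) - kin (u j) + nucR X Z * Helper95.PW.sq (u j) +
              Ca * (kin (u j) + n) ≤ (2 * Ce + 1 + Ca * (Ck + 1)) * n := by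
            nlinarith
          calc Ca * (QM X Z (u j) - kin (u j) + nucR X Z * Helper95.PW.sq (u j) +
                Ca * (kin (u j) + n)) ≤ Ca * ((2 * Ce + 1 + Ca * (Ck + 1)) * n) :=
                mul_le_mul_of_nonneg_left r3 hCa.le
            _ = D * n := by rw [hD]; ring
        have q5 : ∀ s : ℝ, 0 < s → s ≤ d →
            ∑ i, Z i * one (fun y => mor s (y - X i)) (u j) ≤ B1 := by
          intro s hs hsd
          have := q3 s hs hsd
          rw [hB1]
          linarith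
        have hs0 := Real.sqrt_nonneg (resM X Z E (u j))
        have hB1n : 0 ≤ B1 := by rw [hB1]; positivity
        have hM2 := le_abs_self M0
        have hM3 := abs_nonneg M0
        have hM4 := hM0 j
        have hb := HI (u j) (hsm j).1 (hsm j).2 hj1 (by linarith) (by linarith) (by linarith)
          (by linarith) (by linarith) B1 d hB1n hd q5 m
        refine hb.trans (add_le_add ?_ le_rfl)
        have n1 := MTH_ind (u j) hj1
        have n0 : 0 ≤ one (ind Set.univ) (u j) := com_one_nonneg _ (innm_ind_nonneg _) _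
        apply mul_le_mul_of_nonneg_left _ (by positivity)
        have b1 : (kin (u j) + pair (u j) + one (pot X Z) (u j)) / R ^ 2 ≤ V / R ^ 2 :=
          div_le_div_of_nonneg_right (by linarith) (by positivity)
        have b2 : one (ind Set.univ) (u j) / R ^ 4 ≤ 2 * n / R ^ 4 :=
          div_le_div_of_nonneg_right n1 (by positivity)
        have b0 : 0 ≤ (kin (u j) + pair (u j) + one (pot X Z) (u j)) / R ^ 2 +
            one (ind Set.univ) (u j) / R ^ 4 + B1 := by positivity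
        exact mul_le_mul n1 (by linarith) b0 (by positivity)
      have lim1 : Tendsto (fun j => Helper95.PW.sq (fun s => Pg (gm m ((L:ℝ) + 1)) (u j s)) ^ 2)
          atTop (nhds (Helper95.PW.sq (PG (gm m ((L:ℝ) + 1)) φ G) ^ 2)) :=
        (l3 _ (H7 m _ hLp).1.sm (H7 m _ hLp).1.cs).pow 2
      have lr : Tendsto (fun j => Real.sqrt (resM X Z E (u j))) atTop (nhds 0) := by
        have := hres.sqrt
        rwa [Real.sqrt_zero] at this
      have lim2 : Tendsto (fun j => Cb * K ^ 4 * (2 * n * (V / R ^ 2 + 2 * n / R ^ 4 +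
            (D * n + C' * Real.sqrt (resM X Z E (u j))))) +
              C'' * Real.sqrt (resM X Z E (u j))) atTop
          (nhds (Cb * K ^ 4 * (2 * n * (V / R ^ 2 + 2 * n / R ^ 4 + (D * n + C' * 0))) +
            C'' * 0)) := by
        have t4 := (lr.const_mul C').const_add (D * (n:ℝ))
        exact (((t4.const_add (V / R ^ 2 + 2 * (n:ℝ) / R ^ 4)).const_mul
          (2 * (n:ℝ))).const_mul (Cb * K ^ 4)).add (lr.const_mul C'')
      have hfin := le_of_tendsto_of_tendsto lim1 lim2 hevj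
      rw [mul_zero, mul_zero, add_zero, add_zero] at hfin
      exact hfin
    have lim1 := (h6 n φ G m hG.lp hG.lpG).pow 2
    have t0 : Tendsto (fun L : ℕ => (((L:ℝ) + 1) / 2) ^ 2) atTop atTop :=
      (tendsto_pow_atTop two_ne_zero).comp hLt
    have t1 : Tendsto (fun L : ℕ => (((L:ℝ) + 1) / 2) ^ 4) atTop atTop :=
      (tendsto_pow_atTop four_ne_zero).comp hLt
    have t2 := (t0.const_div_atTop V).add (t1.const_div_atTop (2 * (n:ℝ)))
    have t3 := ((t2.add_const (D * (n:ℝ))).const_mul (2 * (n:ℝ))).const_mul (Cb * K ^ 4)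
    have hfin := le_of_tendsto_of_tendsto lim1 t3 hev
    rw [add_zero, zero_add] at hfin
    exact hfin
  have hsum : mom G ^ 2 ≤ 3 * ∑ m : Fin 3, Helper95.PW.sq (fun s x => ∑ k, G k m s x) ^ 2 := by
    unfold mom
    have := sq_sum_le_card_mul_sum_sq (s := (Finset.univ : Finset (Fin 3)))
      (f := fun m : Fin 3 => Helper95.PW.sq (fun s x => ∑ k, G k m s x))
    simpa using this
  have hsum2 : ∑ m : Fin 3, Helper95.PW.sq (fun s x => ∑ k, G k m s x) ^ 2 ≤
      3 * (Cb * K ^ 4 * (2 * n * (D * n))) := by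
    have := Finset.sum_le_sum (s := (Finset.univ : Finset (Fin 3))) fun m _ => key m
    simpa using this
  have hlast : mom G ^ 2 ≤ 18 * (Cb * K ^ 4) * D * (n:ℝ) ^ 2 := by
    calc mom G ^ 2 ≤ 3 * (3 * (Cb * K ^ 4 * (2 * n * (D * n)))) := hsum.trans (by linarith)
      _ = 18 * (Cb * K ^ 4) * D * (n:ℝ) ^ 2 := by ring
  have hroot := Real.abs_le_sqrt hlast
  rw [Real.sqrt_mul (by positivity), Real.sqrt_sq (by positivity)] at hroot
  exact (le_abs_self _).trans hroot

end Pool.Agent.Helper77.LN
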